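import Pool.Agent.Y6.M.Stm
import Pool.Agent.H772R2.NSR.Ode

/-!
Existence for the truncated systems (complex amplitudes). The vector field is evaluated at the
symmetrization `w i = (z i + conj (z (bar i))) / 2`; the solution is then symmetric because
`z i - conj (z (bar i))` has the derivative zero.
-/

open Set Filter Topology Metric
open scoped NNReal InnerProductSpace ComplexConjugate

set_option autoImplicit false

namespace Pool.Agent.Y153.EM

open Pool.Agent.Y6.M

section

variable {I : Type} (F : Finset I)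

/-- the state space: real and imaginary parts -/
abbrev ES := EuclideanSpace ℝ (↥F × Bool)

open Classical in
/-- the complex amplitudes, extended by zero -/
noncomputable def ext (x : ES F) (i : I) : ℂ :=
  if h : i ∈ F then (⟨x (⟨i, h⟩, false), x (⟨i, h⟩, true)⟩ : ℂ) else 0

variable {F}

lemma ext_mem (x : ES F) {i : I} (h : i ∈ F) :
    ext F x i = ⟨x (⟨i, h⟩, false), x (⟨i, h⟩, true)⟩ := by
  simp [ext, h]

lemma ext_not (x : ES F) {i : I} (h : i ∉ F) : ext F x i = 0 := by
  simp [ext, h]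

lemma mk_eq (a b : ℝ) : (⟨a, b⟩ : ℂ) = (a : ℂ) + (b : ℂ) * Complex.I := Complex.mk_eq_add_mul_I a b

lemma ext_contDiff (i : I) : ContDiff ℝ 1 fun x : ES F => ext F x i := by
  by_cases h : i ∈ F
  · have e : (fun x : ES F => ext F x i) = fun x : ES F =>
        ((x (⟨i, h⟩, false) : ℝ) : ℂ) + ((x (⟨i, h⟩, true) : ℝ) : ℂ) * Complex.I := by
      funext x
      rw [ext_mem x h, mk_eq]
    rw [e]
    have h1 : ∀ j : ↥F × Bool, ContDiff ℝ 1 fun x : ES F => ((x j : ℝ) : ℂ) := fun j =>
      Complex.ofRealCLM.contDiff.comp (contDiff_piLp_apply 2)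
    exact (h1 _).add ((h1 _).mul contDiff_const)
  · simp only [ext, h, dif_neg, not_false_eq_true]
    exact contDiff_const

/-- symmetrization -/
noncomputable def sy (bar : I → I) (z : I → ℂ) (i : I) : ℂ := (z i + conj (z (bar i))) / 2

lemma sy_bar {bar : I → I} (inv : ∀ i, bar (bar i) = i) (z : I → ℂ) (i : I) :
    sy bar z (bar i) = conj (sy bar z i) := by
  unfold sy
  rw [inv, map_div₀, map_add, Complex.conj_conj, add_comm]
  congr 1
  exact (Complex.conj_ofNat 2).symm

/-- the vector field of the amplitudes -/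
noncomputable def Ph (S : ℕ → ℝ) (lv : I → ℕ) (σ : I → ℝ) (c : I → I → I → ℂ) (F : Finset I)
    (w : I → ℂ) (i : I) : ℂ :=
  Kz S lv σ w i + ∑ p ∈ F ×ˢ F, c i p.1 p.2 * w p.1 * w p.2

variable {S : ℕ → ℝ} {lv : I → ℕ} {bar : I → I} {σ : I → ℝ} {c : I → I → I → ℂ}

/-- the vector field is symmetric -/
lemma Ph_bar (hK : Ker lv bar σ c) (hF : ∀ i ∈ F, bar i ∈ F) {w : I → ℂ}
    (hw : ∀ i, w (bar i) = conj (w i)) (i : I) :
    Ph S lv σ c F w (bar i) = conj (Ph S lv σ c F w i) := by
  unfold Ph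
  rw [map_add, map_sum]
  congr 1
  · unfold Kz
    rw [hK.lbar, hK.sbar, hw, map_mul, map_mul, Complex.conj_I, Complex.conj_ofReal]
    push_cast
    ring
  · refine Finset.sum_nbij' (fun p => (bar p.1, bar p.2)) (fun p => (bar p.1, bar p.2))
      ?_ ?_ ?_ ?_ ?_
    · intro p hp
      rw [Finset.mem_product] at hp ⊢
      exact ⟨hF _ hp.1, hF _ hp.2⟩
    · intro p hp
      rw [Finset.mem_product] at hp ⊢
      exact ⟨hF _ hp.1, hF _ hp.2⟩
    · intro p _
      simp [hK.inv]
    · intro p _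
      simp [hK.inv]
    · intro p _
      simp only
      rw [map_mul, map_mul, ← hK.real, hw, hw]
      have e1 := hK.real i (bar p.1) (bar p.2)
      rw [hK.inv, hK.inv] at e1
      rw [e1, hK.real, Complex.conj_conj, Complex.conj_conj]

/-- the energy of a symmetric state -/
lemma en_w (hK : Ker lv bar σ c) (hF : ∀ i ∈ F, bar i ∈ F) {w : I → ℂ}
    (hw : ∀ i, w (bar i) = conj (w i)) :
    ∑ i ∈ F, (conj (w i) * Ph S lv σ c F w i).re = 0 := by
  have h1 : ∑ i ∈ F, (conj (w i) * Kz S lv σ w i).re = 0 := by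
    refine Finset.sum_eq_zero fun i _ => ?_
    unfold Kz
    simp only [Complex.mul_re, Complex.mul_im, Complex.conj_re, Complex.conj_im, Complex.I_re,
      Complex.I_im, Complex.ofReal_re, Complex.ofReal_im]
    ring
  have h2 : ∑ i ∈ F, (conj (w i) * ∑ p ∈ F ×ˢ F, c i p.1 p.2 * w p.1 * w p.2).re =
      ∑ q ∈ F ×ˢ (F ×ˢ F), (conj (w q.1) * (c q.1 q.2.1 q.2.2 * w q.2.1 * w q.2.2)).re := by
    rw [Finset.sum_product]
    refine Finset.sum_congr rfl fun i _ => ?_
    rw [Finset.mul_sum, Complex.re_sum]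
  have h3 : ∑ q ∈ F ×ˢ (F ×ˢ F), (conj (w q.1) * (c q.1 q.2.1 q.2.2 * w q.2.1 * w q.2.2)).re =
      0 := by
    have key : ∀ i a b : I, (conj (w i) * (c i a b * w a * w b)).re +
        (conj (w b) * (c b (bar a) i * w (bar a) * w i)).re = 0 := by
      intro i a b
      have e : conj (w b) * (c b (bar a) i * w (bar a) * w i) =
          -conj (conj (w i) * (c i a b * w a * w b)) := by
        rw [hK.anti i a b, hw a]
        simp only [map_mul, map_neg, Complex.conj_conj]
        ring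
      rw [e, Complex.neg_re, Complex.conj_re]
      ring
    refine Finset.sum_involution (fun q _ => (q.2.2, bar q.2.1, q.1)) ?_ ?_ ?_ ?_
    · rintro ⟨i, a, b⟩ _
      exact key i a b
    · rintro ⟨i, a, b⟩ _ hne h
      have h4 := key i a b
      simp only [Prod.mk.injEq] at h
      obtain ⟨h5, h6, h7⟩ := h
      apply hne
      change (conj (w i) * (c i a b * w a * w b)).re = 0
      rw [h6, h5] at h4
      rw [h5]
      linarith
    · rintro ⟨i, a, b⟩ h
      simp only [Finset.mem_product] at h ⊢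
      exact ⟨h.2.2, hF _ h.2.1, h.1⟩
    · rintro ⟨i, a, b⟩ _
      simp [hK.inv]
  unfold Ph
  simp only [mul_add, Complex.add_re, Finset.sum_add_distrib]
  rw [h1, h2, h3, add_zero]

/-- symmetrization and the energy -/
lemma en_sy (hK : Ker lv bar σ c) (hF : ∀ i ∈ F, bar i ∈ F) (z Y : I → ℂ)
    (hY : ∀ i, Y (bar i) = conj (Y i)) :
    ∑ i ∈ F, (conj (z i) * Y i).re = ∑ i ∈ F, (conj (sy bar z i) * Y i).re := by
  have h1 : ∑ i ∈ F, (z (bar i) * Y i).re = ∑ i ∈ F, (conj (z i) * Y i).re := by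
    refine Finset.sum_nbij' bar bar hF hF (fun i _ => hK.inv i) (fun i _ => hK.inv i) ?_
    intro i _
    rw [hY, ← map_mul, Complex.conj_re]
  have h2 : ∀ i, (conj (sy bar z i) * Y i).re =
      ((conj (z i) * Y i).re + (z (bar i) * Y i).re) / 2 := by
    intro i
    have e : conj (sy bar z i) * Y i = (conj (z i) * Y i + z (bar i) * Y i) / 2 := by
      unfold sy
      rw [map_div₀, map_add, Complex.conj_conj, Complex.conj_ofNat]
      ring
    rw [e, ← Complex.add_re]
    exact Complex.div_ofNat_re _ 2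
  simp only [h2]
  rw [← Finset.sum_div, Finset.sum_add_distrib, h1]
  ring

/-- the vector field on the state space -/
noncomputable def XX (S : ℕ → ℝ) (lv : I → ℕ) (bar : I → I) (σ : I → ℝ) (c : I → I → I → ℂ)
    (F : Finset I) (x : ES F) : ES F :=
  WithLp.toLp 2 fun q => if q.2 then (Ph S lv σ c F (sy bar (ext F x)) q.1).im
    else (Ph S lv σ c F (sy bar (ext F x)) q.1).re

lemma Ph_contDiff (i : I) : ContDiff ℝ 1 fun x : ES F => Ph S lv σ c F (sy bar (ext F x)) i := by
  have h1 : ∀ j, ContDiff ℝ 1 fun x : ES F => sy bar (ext F x) j := by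
    intro j
    unfold sy
    refine ContDiff.div_const (ContDiff.add (ext_contDiff j) ?_) 2
    exact Complex.conjCLE.contDiff.comp (ext_contDiff (bar j))
  unfold Ph Kz
  refine ContDiff.add (contDiff_const.mul (h1 i)) ?_
  refine ContDiff.sum fun p _ => ?_
  exact (contDiff_const.mul (h1 _)).mul (h1 _)

lemma XX_contDiff : ContDiff ℝ 1 (XX S lv bar σ c F) := by
  rw [contDiff_piLp]
  rintro ⟨i, b⟩
  cases b with
  | true =>
    have h := Complex.imCLM.contDiff.comp
      (Ph_contDiff (F := F) (S := S) (lv := lv) (bar := bar) (σ := σ) (c := c) (i : I))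
    exact h
  | false =>
    have h := Complex.reCLM.contDiff.comp
      (Ph_contDiff (F := F) (S := S) (lv := lv) (bar := bar) (σ := σ) (c := c) (i : I))
    exact h

lemma inner_ES (X x : ES F) : ⟪X, x⟫_ℝ = ∑ i ∈ F, (conj (ext F x i) * ext F X i).re := by
  rw [← Finset.sum_coe_sort, PiLp.inner_apply, Fintype.sum_prod_type]
  refine Finset.sum_congr rfl fun i _ => ?_
  rw [ext_mem x i.2, ext_mem X i.2, Fintype.sum_bool]
  simp only [Complex.mul_re, Complex.conj_re, Complex.conj_im, RCLike.inner_apply,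
    conj_trivial]
  ring

lemma ext_XX (x : ES F) {i : I} (hi : i ∈ F) :
    ext F (XX S lv bar σ c F x) i = Ph S lv σ c F (sy bar (ext F x)) i := by
  rw [ext_mem _ hi]
  exact Complex.ext rfl rfl

lemma norm_ES (x : ES F) : ‖x‖ ^ 2 = ∑ a ∈ F, ‖ext F x a‖ ^ 2 := by
  rw [← real_inner_self_eq_norm_sq, inner_ES]
  refine Finset.sum_congr rfl fun i _ => ?_
  rw [← Complex.normSq_eq_norm_sq, mul_comm, Complex.mul_conj, Complex.ofReal_re]

end

theorem t_GAL : Pool.Agent.Y6.M.S_GAL := by
  intro I lv bar σ c S v hK hv N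
  classical
  have hfin : {i : I | lv i ≤ N}.Finite := hK.fin N
  set F : Finset I := hfin.toFinset with hFdef
  have hmem : ∀ i, i ∈ F ↔ lv i ≤ N := by
    intro i
    simp [hFdef]
  have hF : ∀ i ∈ F, bar i ∈ F := fun i hi => by
    rw [hmem] at hi ⊢
    rwa [hK.lbar]
  have hlip : ∀ R : ℝ, ∃ C : ℝ≥0, ∀ t ∈ Icc (0 : ℝ) 60,
      LipschitzOnWith C ((fun _ => XX S lv bar σ c F) t) (closedBall 0 R) := by
    intro R
    obtain ⟨C, hC⟩ := ((XX_contDiff (S := S) (lv := lv) (bar := bar) (σ := σ) (c := c)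
      (F := F)).contDiffOn (s := closedBall 0 R)).exists_lipschitzOnWith one_ne_zero
        (convex_closedBall 0 R) (isCompact_closedBall 0 R)
    exact ⟨C, fun _ _ => hC⟩
  have hen : ∀ t ∈ Icc (0 : ℝ) 60, ∀ x : ES F,
      ⟪(fun _ : ℝ => XX S lv bar σ c F) t x, x⟫_ℝ ≤ 0 := by
    intro t _ x
    change ⟪XX S lv bar σ c F x, x⟫_ℝ ≤ 0
    have h1 : ∑ i ∈ F, (conj (ext F x i) * ext F (XX S lv bar σ c F x) i).re =
        ∑ i ∈ F, (conj (ext F x i) * Ph S lv σ c F (sy bar (ext F x)) i).re :=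
      Finset.sum_congr rfl fun i hi => by rw [ext_XX x hi]
    rw [inner_ES, h1, en_sy hK hF (ext F x) _ (Ph_bar hK hF (sy_bar hK.inv _)),
      en_w hK hF (sy_bar hK.inv _)]
  set x0 : ES F := WithLp.toLp 2 fun q => if q.2 then (v q.1).im else (v q.1).re with hx0
  have hext0 : ∀ i ∈ F, ext F x0 i = v i := by
    intro i hi
    rw [ext_mem _ hi]
    exact Complex.ext rfl rfl
  obtain ⟨x, hxi, hxd, hxe⟩ := H772R2.NSR.exists_global
    (fun _ => XX S lv bar σ c F) (T := 60) (by norm_num) hlip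
    (fun _ => continuousOn_const) x0 le_rfl hen
  -- the derivative of the amplitudes
  have hder : ∀ i ∈ F, ∀ t ∈ Icc (0 : ℝ) 60, HasDerivWithinAt (fun t => ext F (x t) i)
      (Ph S lv σ c F (sy bar (ext F (x t))) i) (Icc 0 60) t := by
    intro i hi t ht
    have h3 : ∀ q : ↥F × Bool, HasDerivWithinAt (fun t => x t q)
        (XX S lv bar σ c F (x t) q) (Icc 0 60) t := fun q =>
      (PiLp.proj (𝕜 := ℝ) 2 (fun _ : ↥F × Bool => ℝ) q).hasFDerivAt.comp_hasDerivWithinAt t
        (hxd t ht)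
    have h4 := (h3 (⟨i, hi⟩, false)).ofReal_comp.add
      ((h3 (⟨i, hi⟩, true)).ofReal_comp.mul_const Complex.I)
    have h5 : (fun t => ext F (x t) i) = fun t => ((x t (⟨i, hi⟩, false) : ℝ) : ℂ) +
        ((x t (⟨i, hi⟩, true) : ℝ) : ℂ) * Complex.I := by
      funext t
      rw [ext_mem _ hi, mk_eq]
    rw [h5, ← ext_XX (x t) hi, ext_mem _ hi, mk_eq]
    exact h4
  -- symmetry
  have hreal : ∀ i, ∀ t ∈ Icc (0 : ℝ) 60, ext F (x t) (bar i) = conj (ext F (x t) i) := by
    intro i t ht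
    by_cases hi : i ∈ F
    · have hu : ∀ s ∈ Icc (0 : ℝ) 60, HasDerivWithinAt
          (fun t => ext F (x t) (bar i) - conj (ext F (x t) i)) 0 (Icc 0 60) s := by
        intro s hs
        have h1 := hder (bar i) (hF i hi) s hs
        have h2 := Complex.conjCLE.hasFDerivAt.comp_hasDerivWithinAt s (hder i hi s hs)
        have h3 := h1.sub h2
        have h4 : Ph S lv σ c F (sy bar (ext F (x s))) (bar i) -
            Complex.conjCLE (Ph S lv σ c F (sy bar (ext F (x s))) i) = 0 := by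
          rw [Ph_bar hK hF (sy_bar hK.inv _)]
          exact sub_self _
        have h5 := h3
        rw [show Ph S lv σ c F (sy bar (ext F (x s))) (bar i) -
            (Complex.conjCLE : ℂ →L[ℝ] ℂ) (Ph S lv σ c F (sy bar (ext F (x s))) i) = 0 from h4] at h5
        exact h5
      have hc := constant_of_derivWithin_zero (fun s hs => (hu s hs).differentiableWithinAt)
        (fun s hs => (hu s ⟨hs.1, hs.2.le⟩).derivWithin
          ((uniqueDiffOn_Icc (by norm_num : (0 : ℝ) < 60)) s ⟨hs.1, hs.2.le⟩)) t ht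
      have h0 : ext F (x 0) (bar i) - conj (ext F (x 0) i) = 0 := by
        rw [hxi, hext0 _ (hF i hi), hext0 _ hi, hv.real, sub_self]
      have hc' : ext F (x t) (bar i) - conj (ext F (x t) i) =
          ext F (x 0) (bar i) - conj (ext F (x 0) i) := hc
      rw [h0] at hc'
      exact sub_eq_zero.1 hc'
    · have hi' : bar i ∉ F := fun h => hi (by
        have := hF _ h
        rwa [hK.inv] at this)
      rw [ext_not _ hi, ext_not _ hi', map_zero]
  have hsy : ∀ t ∈ Icc (0 : ℝ) 60, sy bar (ext F (x t)) = ext F (x t) := by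
    intro t ht
    funext i
    unfold sy
    rw [hreal i t ht, Complex.conj_conj]
    ring
  refine ⟨fun i t => ext F (x t) i, ?_, ?_, ?_, ?_, ?_⟩
  · intro i hi t
    exact ext_not _ (by rw [hmem]; omega)
  · exact hreal
  · intro i hi t ht
    have hiF : i ∈ F := (hmem i).2 hi
    have hq : qd c (fun a => ext F (x t) a) i =
        ∑ p ∈ F ×ˢ F, c i p.1 p.2 * ext F (x t) p.1 * ext F (x t) p.2 := by
      unfold qd
      refine tsum_eq_sum fun p hp => ?_
      rw [Finset.mem_product, not_and_or] at hp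
      rcases hp with hp | hp
      · simp [ext_not _ hp]
      · simp [ext_not _ hp]
    rw [hq]
    have h3 := hder i hiF t ht
    rw [hsy t ht] at h3
    exact h3
  · intro i hi
    rw [hxi]
    exact hext0 i ((hmem i).2 hi)
  · intro t ht
    have h1 : ∑' a, ‖ext F (x t) a‖ ^ 2 = ∑ a ∈ F, ‖ext F (x t) a‖ ^ 2 := by
      refine tsum_eq_sum fun a ha => ?_
      rw [ext_not _ ha]
      simp
    change ∑' a, ‖ext F (x t) a‖ ^ 2 ≤ 1
    rw [h1, ← norm_ES]
    have h2 := hxe t ht
    have h3 : ‖x0‖ ^ 2 = ∑ a ∈ F, ‖v a‖ ^ 2 := by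
      rw [norm_ES]
      exact Finset.sum_congr rfl fun i hi => by rw [hext0 i hi]
    have h4 : ∑ a ∈ F, ‖v a‖ ^ 2 ≤ ∑' a, ‖v a‖ ^ 2 :=
      hv.sq.sum_le_tsum F fun i _ => by positivity
    have h5 := hv.le
    rw [h3] at h2
    linarith

end Pool.Agent.Y153.EM
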